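import Mathlib
import Pool.Agent.Work.MP_db9399_lin.Interface

/-! MP_db9399_co, linear theorem, block LABE. -/

set_option autoImplicit false

universe u

namespace MP_db9399_co.Lin

open Finset

theorem stmt_LABE : Stmt_LABE.{u} := by
  intro V _ _ N0 d ℓ Fx hFx hd hl
  have : Nonempty (Fin ℓ) := ⟨⟨0, by omega⟩⟩
  induction N0 using Finset.induction_on with
  | empty => exact ⟨fun _ => Classical.arbitrary _, by simp, by simp⟩
  | insert e N he ih =>
    obtain ⟨lam, h1, h2⟩ := ih (fun w => le_trans (card_le_card (by
      intro f hf
      simp only [inc, mem_filter] at hf ⊢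
      exact ⟨mem_insert_of_mem hf.1, hf.2⟩)) (hd w))
    have hcard : ∀ w, (e.1 = w ∨ e.2 = w) → (inc N w).card + 1 ≤ d := by
      intro w hw
      refine le_trans ?_ (hd w)
      have : insert e (inc N w) ⊆ inc (insert e N) w := by
        intro f hf
        rw [mem_insert] at hf
        rcases hf with rfl | hf
        · simp only [inc, mem_filter]
          exact ⟨mem_insert_self _ _, hw⟩
        · simp only [inc, mem_filter] at hf ⊢
          exact ⟨mem_insert_of_mem hf.1, hf.2⟩
      have h3 := card_le_card this
      rw [card_insert_of_notMem (by simp only [inc, mem_filter]; exact fun h => he h.1)] at h3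
      exact h3
    have hbad : ((inc N e.1).image lam ∪ (inc N e.2).image lam ∪ (Fx e.1 ∪ Fx e.2)).card <
        (univ : Finset (Fin ℓ)).card := by
      have a1 := hcard e.1 (Or.inl rfl)
      have a2 := hcard e.2 (Or.inr rfl)
      have b1 : ((inc N e.1).image lam).card ≤ _ := card_image_le
      have b2 : ((inc N e.2).image lam).card ≤ _ := card_image_le
      have c1 := hFx e.1
      have c2 := hFx e.2
      have d1 := card_union_le ((inc N e.1).image lam ∪ (inc N e.2).image lam) (Fx e.1 ∪ Fx e.2)
      have d2 := card_union_le ((inc N e.1).image lam) ((inc N e.2).image lam)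
      have d3 := card_union_le (Fx e.1) (Fx e.2)
      rw [card_univ, Fintype.card_fin]
      omega
    obtain ⟨c, -, hc⟩ := exists_mem_notMem_of_card_lt_card hbad
    simp only [mem_union, mem_image, not_or, not_exists, not_and] at hc
    obtain ⟨⟨hc1, hc2⟩, hc3, hc4⟩ := hc
    have hne : ∀ f, f ∈ N → f ≠ e := by
      rintro f hf rfl
      exact he hf
    refine ⟨Function.update lam e c, ?_, ?_⟩
    · intro f hf
      rcases mem_insert.1 hf with hfe | hfN
      · subst hfe
        rw [Function.update_self]
        exact ⟨hc3, hc4⟩
      · rw [Function.update_of_ne (hne f hfN)]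
        exact h1 f hfN
    · have key : ∀ f ∈ N, Share e f → lam f ≠ c := by
        intro f hf hs
        rcases hs with h | h | h | h
        · exact hc1 f (by simp only [inc, mem_filter]; exact ⟨hf, Or.inl h.symm⟩)
        · exact hc1 f (by simp only [inc, mem_filter]; exact ⟨hf, Or.inr h.symm⟩)
        · exact hc2 f (by simp only [inc, mem_filter]; exact ⟨hf, Or.inl h.symm⟩)
        · exact hc2 f (by simp only [inc, mem_filter]; exact ⟨hf, Or.inr h.symm⟩)
      have hsymm : ∀ f g : V × V, Share f g → Share g f := by
        intro f g hs
        rcases hs with h | h | h | h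
        · exact Or.inl h.symm
        · exact Or.inr (Or.inr (Or.inl h.symm))
        · exact Or.inr (Or.inl h.symm)
        · exact Or.inr (Or.inr (Or.inr h.symm))
      intro f hf g hg hfg hs
      rcases mem_insert.1 hf with hfe | hfN
      · subst hfe
        rcases mem_insert.1 hg with hge | hgN
        · exact absurd hge.symm hfg
        · rw [Function.update_self, Function.update_of_ne hfg.symm]
          exact (key g hgN hs).symm
      · rcases mem_insert.1 hg with hge | hgN
        · subst hge
          rw [Function.update_self, Function.update_of_ne hfg]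
          exact key f hfN (hsymm _ _ hs)
        · rw [Function.update_of_ne (hne f hfN),
            Function.update_of_ne (hne g hgN)]
          exact h2 f hfN g hgN hfg hs

end MP_db9399_co.Lin
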