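import Mathlib
import Pool.Agent.Work.MP_db9399_lin.Interface

/-! MP_db9399_co, linear theorem, block LABV. -/

set_option autoImplicit false

universe u

namespace MP_db9399_co.Lin

open Finset

theorem stmt_LABV : Stmt_LABV.{u} := by
  intro V _ _ r R _ U ℓ q FL hr hsymm hirr hFL hU2 hUU hq hl
  have : Nonempty (Fin ℓ) := ⟨⟨0, by omega⟩⟩
  have main : ∀ n : ℕ, ∃ lam : V → Fin ℓ,
      (∀ x y, r x < n → r y < n → x ∉ U → y ∉ U → R x y → lam x ≠ lam y) ∧
      (∀ x u, r x < n → x ∉ U → u ∈ U → R x u → lam x ∉ FL u) := by
    intro n
    induction n with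
    | zero => exact ⟨fun _ => Classical.arbitrary _, by intros; omega, by intros; omega⟩
    | succ n ih =>
      obtain ⟨lam, h1, h2⟩ := ih
      by_cases hw : ∃ w, r w = n
      · obtain ⟨w, hw⟩ := hw
        have hbad : (((univ.filter (fun x => R w x ∧ r x < r w)).image lam) ∪
            (univ.filter (fun u => u ∈ U ∧ R w u)).biUnion FL).card <
            (univ : Finset (Fin ℓ)).card := by
          have a1 := hq w
          have a2 := hU2 w
          have a3 : ((univ.filter (fun x => R w x ∧ r x < r w)).image lam).card ≤ _ :=
            card_image_le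
          have a4 : ((univ.filter (fun u => u ∈ U ∧ R w u)).biUnion FL).card ≤
              (univ.filter (fun u => u ∈ U ∧ R w u)).card * 2 :=
            card_biUnion_le_card_mul _ _ _ (fun u hu => hFL u (by simp at hu; exact hu.1))
          have a5 := card_union_le ((univ.filter (fun x => R w x ∧ r x < r w)).image lam)
            ((univ.filter (fun u => u ∈ U ∧ R w u)).biUnion FL)
          rw [card_univ, Fintype.card_fin]
          omega
        obtain ⟨c, -, hc⟩ := exists_mem_notMem_of_card_lt_card hbad
        simp only [mem_union, mem_image, mem_biUnion, mem_filter, mem_univ, true_and, not_or,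
          not_exists, not_and] at hc
        obtain ⟨hc1, hc2⟩ := hc
        have hlt : ∀ x, r x < n + 1 → x ≠ w → r x < n := by
          intro x hx hxw
          rcases Nat.lt_succ_iff_lt_or_eq.1 hx with h | h
          · exact h
          · exact absurd (hr (h.trans hw.symm)) hxw
        refine ⟨Function.update lam w c, ?_, ?_⟩
        · intro x y hx hy hxU hyU hxy
          by_cases hxw : x = w
          · subst hxw
            have hyx : y ≠ x := by rintro rfl; exact hirr _ hxy
            rw [Function.update_self, Function.update_of_ne hyx]
            exact fun h => hc1 y ⟨hxy, by rw [hw]; exact hlt y hy hyx⟩ h.symm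
          · by_cases hyw : y = w
            · subst hyw
              rw [Function.update_self, Function.update_of_ne hxw]
              exact hc1 x ⟨hsymm _ _ hxy, by rw [hw]; exact hlt x hx hxw⟩
            · rw [Function.update_of_ne hxw, Function.update_of_ne hyw]
              exact h1 x y (hlt x hx hxw) (hlt y hy hyw) hxU hyU hxy
        · intro x u hx hxU hu hxu
          by_cases hxw : x = w
          · subst hxw
            rw [Function.update_self]
            exact hc2 u ⟨hu, hxu⟩
          · rw [Function.update_of_ne hxw]
            exact h2 x u (hlt x hx hxw) hxU hu hxu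
      · refine ⟨lam, ?_, ?_⟩
        · intro x y hx hy
          refine h1 x y ?_ ?_
          · rcases Nat.lt_succ_iff_lt_or_eq.1 hx with h | h
            · exact h
            · exact absurd ⟨x, h⟩ hw
          · rcases Nat.lt_succ_iff_lt_or_eq.1 hy with h | h
            · exact h
            · exact absurd ⟨y, h⟩ hw
        · intro x u hx
          refine h2 x u ?_
          rcases Nat.lt_succ_iff_lt_or_eq.1 hx with h | h
          · exact h
          · exact absurd ⟨x, h⟩ hw
  obtain ⟨lam, h1, h2⟩ := main (univ.sup r + 1)
  have hlt : ∀ x, r x < univ.sup r + 1 := fun x => Nat.lt_succ_of_le (le_sup (mem_univ x))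
  refine ⟨lam, fun x y hxy => ?_⟩
  unfold FbOf
  split_ifs with hx hy hy
  · exact absurd hxy (hUU x hx y hy)
  · rw [disjoint_singleton_right]
    exact h2 y x (hlt y) hy hx (hsymm _ _ hxy)
  · rw [disjoint_singleton_left]
    exact h2 x y (hlt x) hx hy hxy
  · rw [disjoint_singleton_left, mem_singleton]
    exact h1 x y (hlt x) (hlt y) hx hy hxy

end MP_db9399_co.Lin
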