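import Mathlib
import Pool.Agent.Work.MP_db9399_lin.Interface

/-! MP_db9399_co, linear theorem, block CUT. -/

set_option autoImplicit false

universe u

namespace MP_db9399_co.Lin

open Finset

theorem stmt_CUT (hBF : Stmt_BF.{u}) : Stmt_CUT.{u} := by
  intro V _ _ E s m hb
  have hmem : ∀ w x : V, x ∈ (fwd E w).image Prod.snd ↔ (w, x) ∈ E := by
    intro w x
    simp only [fwd, mem_image, mem_filter]
    constructor
    · rintro ⟨⟨a, b⟩, ⟨h1, h2⟩, h3⟩
      simp only at h2 h3
      subst h2 h3
      exact h1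
    · intro h
      exact ⟨(w, x), ⟨h, rfl⟩, rfl⟩
  have hinj : ∀ w : V, Set.InjOn Prod.snd ((fwd E w : Finset (V × V)) : Set (V × V)) := by
    rintro w ⟨a, b⟩ ha ⟨c, d⟩ hc h
    simp only [fwd, coe_filter, Set.mem_ofPred_eq] at ha hc h
    rw [h, ha.2, hc.2]
  obtain ⟨f, hf⟩ := hBF V V (fun w => (fwd E w).image Prod.snd) s m (by
    intro x
    refine le_trans ?_ (hb x)
    refine card_le_card_of_injOn (fun w => (w, x)) ?_ ?_
    · intro w hw
      simp only [coe_filter, mem_univ, true_and, Set.mem_ofPred_eq, hmem] at hw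
      simp only [bwd, coe_filter, Set.mem_ofPred_eq, and_true]
      exact hw
    · intro a _ b _ h
      exact (Prod.mk.inj h).1)
  refine ⟨f, fun w b => ?_⟩
  have h := hf w b
  rw [card_image_of_injOn (hinj w), filter_image, card_image_of_injOn
    ((hinj w).mono (by simp only [coe_filter]; exact fun e he => he.1))] at h
  exact h

end MP_db9399_co.Lin
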